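import Mathlib
import Pool.Agent.Y876.FF.Tr

/-! Primes of the orbits of `x ↦ 4 x + 1` at prescribed times, from primes in linear forms. -/

set_option autoImplicit false

open Finset Filter

namespace Pool.Agent.J6H58.Orb

open Pool.Agent.Y876.FF (LH exact_forms)

/-- the map of the question -/
def S (x : ℕ) : ℕ := 4 * x + 1

/-- `(4 ^ t - 1) / 3` -/
def g : ℕ → ℕ
  | 0 => 0
  | t + 1 => 4 * g t + 1

lemma g_eq (t : ℕ) : 3 * g t + 1 = 4 ^ t := by
  induction t with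
  | zero => rfl
  | succ t ih =>
    rw [g, pow_succ]
    omega

lemma iter (t n : ℕ) : S^[t] n = 4 ^ t * n + g t := by
  induction t with
  | zero => simp [g]
  | succ t ih =>
    rw [Function.iterate_succ_apply', ih, S, g, pow_succ]
    ring

lemma g_mod (t : ℕ) : g t % 3 = t % 3 := by
  induction t with
  | zero => rfl
  | succ t ih =>
    rw [g]
    omega

lemma four_mod (t : ℕ) : 4 ^ t % 3 = 1 := by
  rw [Nat.pow_mod]
  norm_num

/-- the local condition, apart from the prime `3` -/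
lemma local_ne {p : ℕ} (hp : p.Prime) (h3 : p ≠ 3) : ∃ n : ℕ, ∀ t : ℕ, ¬ p ∣ 4 ^ t * n + g t := by
  have h1 : ∃ n : ℕ, 3 * n + 1 = p ^ 2 := by
    have h2 : p % 3 = 1 ∨ p % 3 = 2 := by
      have : p % 3 ≠ 0 := by
        intro h
        have h4 : 3 ∣ p := Nat.dvd_of_mod_eq_zero h
        exact h3 ((Nat.prime_dvd_prime_iff_eq Nat.prime_three hp).1 h4).symm
      omega
    have h5 : p ^ 2 % 3 = 1 := by
      rw [Nat.pow_mod]
      rcases h2 with h | h <;> rw [h]
    exact ⟨p ^ 2 / 3, by omega⟩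
  obtain ⟨n, hn⟩ := h1
  refine ⟨n, fun t hd => ?_⟩
  have h2 : 3 * (4 ^ t * n + g t) + 1 = 4 ^ t * p ^ 2 := by
    have e : 3 * (4 ^ t * n + g t) + 1 = 3 * (4 ^ t * n) + (3 * g t + 1) := by ring
    rw [e, g_eq, ← hn]
    ring
  have h4 : p ∣ 4 ^ t * p ^ 2 := Dvd.dvd.mul_left (dvd_pow_self p two_ne_zero) _
  rw [← h2] at h4
  have h5 : p ∣ 1 := (Nat.dvd_add_right (hd.mul_left 3)).1 h4
  exact hp.one_lt.ne' (Nat.dvd_one.1 h5)

/-- the `n ≤ x` for which the times `t ≤ R` or `t ∈ T` of primes in the orbit of `n` are exactly those of `P` -/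
def Pat (T P : Finset ℕ) (R : ℕ) (x : ℝ) : Set ℕ :=
  {n : ℕ | (n : ℝ) ≤ x ∧ ∀ t : ℕ, t ≤ R ∨ t ∈ T → ((S^[t] n).Prime ↔ t ∈ P)}

theorem Pat_finite (T P : Finset ℕ) (R : ℕ) (x : ℝ) : (Pat T P R x).Finite := by
  apply (Set.finite_Iic ⌊x⌋₊).subset
  rintro n ⟨hn, -⟩
  exact Nat.le_floor hn

theorem Pat_anti (T P : Finset ℕ) {R R' : ℕ} (h : R ≤ R') (x : ℝ) : Pat T P R' x ⊆ Pat T P R x :=
  fun _ hn => ⟨hn.1, fun t ht => hn.2 t (ht.imp (fun h' => h'.trans h) id)⟩

/-- the statement for large `R` -/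
theorem setup {m K C : ℕ} (hyp : LH m K C) (T : Finset ℕ) (r : ℕ)
    (hT : K ≤ (T.filter fun t => ¬ 3 ∣ r + t).card) (R : ℕ) (hR : ∀ t ∈ T, t ≤ R) :
    (∀ᶠ x : ℝ in atTop, x / Real.log x ^ (C + 3) ≤ (Set.ncard {n : ℕ | (n : ℝ) ≤ x ∧
      ∃ P : Finset ℕ, P ⊆ T ∧ m + 1 ≤ P.card ∧
        ∀ t : ℕ, t ≤ R ∨ t ∈ T → ((S^[t] n).Prime ↔ t ∈ P)} : ℝ)) ∧
    ∃ P : Finset ℕ, P ⊆ T ∧ m + 1 ≤ P.card ∧ ∃ᶠ x : ℝ in atTop,
      x / Real.log x ^ (C + 3) ≤ ((Pat T P R x).ncard : ℝ) := by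
  classical
  set T' : Finset ℕ := T.filter fun t => ¬ 3 ∣ r + t with hT'
  set a : Fin (R + 1) → ℤ := fun i => 4 ^ (i : ℕ) with ha
  set b : Fin (R + 1) → ℤ := fun i => (g i : ℤ) with hb
  set U : Finset (Fin (R + 1)) := univ.filter (fun i : Fin (R + 1) => (i : ℕ) ∈ T') with hU
  have hTT : T' ⊆ T := filter_subset _ _
  have himg : U.image (fun i : Fin (R + 1) => (i : ℕ)) = T' := by
    ext t
    rw [mem_image]
    constructor
    · rintro ⟨z, hz, rfl⟩
      exact (mem_filter.1 hz).2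
    · intro ht
      exact ⟨⟨t, Nat.lt_succ_of_le (hR t (hTT ht))⟩, mem_filter.2 ⟨mem_univ _, ht⟩, rfl⟩
  have hcard : U.card = T'.card := by
    rw [← himg, card_image_of_injective _ Fin.val_injective]
  have hcast : ∀ (n : ℕ) (i : Fin (R + 1)), a i * (n : ℤ) + b i = ((S^[(i : ℕ)] n : ℕ) : ℤ) := by
    intro n i
    rw [iter]
    simp only [ha, hb]
    push_cast
    ring
  have hval : ∀ (n : ℕ) (i : Fin (R + 1)), (a i * (n : ℤ) + b i).natAbs.Prime ↔ (S^[(i : ℕ)] n).Prime := by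
    intro n i
    rw [hcast, Int.natAbs_natCast]
  obtain ⟨h1, W, hWU, hWm, h2⟩ := exact_forms hyp a b (fun i => by simp only [ha]; positivity)
    (by
      intro i j hij h
      apply hij
      simp only [ha, hb] at h
      have e1 : (3 * (g i : ℤ) + 1) = 4 ^ (i : ℕ) := by exact_mod_cast g_eq i
      have e2 : (3 * (g j : ℤ) + 1) = 4 ^ (j : ℕ) := by exact_mod_cast g_eq j
      have e3 : (4 : ℤ) ^ (i : ℕ) = 4 ^ (j : ℕ) := by
        rw [← e1, ← e2] at h ⊢
        linarith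
      have e4 : (4 : ℕ) ^ (i : ℕ) = 4 ^ (j : ℕ) := by exact_mod_cast e3
      exact Fin.ext (Nat.pow_right_injective (by norm_num) e4)) U (by rw [hcard]; exact hT)
    (by
      intro p hp
      by_cases h3 : p = 3
      · subst h3
        refine ⟨r, fun i hi hd => ?_⟩
        rw [hcast, iter] at hd
        have h4 : (3 : ℕ) ∣ 4 ^ (i : ℕ) * r + g i := by exact_mod_cast hd
        have h5 := (mem_filter.1 (mem_filter.1 hi).2).2
        apply h5
        have h6 := g_mod i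
        have h7 := four_mod i
        have h8 : (4 ^ (i : ℕ) * r) % 3 = r % 3 := by
          rw [Nat.mul_mod, h7, one_mul, Nat.mod_mod]
        omega
      · obtain ⟨n, hn⟩ := local_ne hp h3
        refine ⟨n, fun i _ hd => hn i ?_⟩
        rw [hcast, iter] at hd
        exact_mod_cast hd)
  have hidx : ∀ t : ℕ, t ≤ R ∨ t ∈ T → t < R + 1 := fun t ht =>
    Nat.lt_succ_of_le (ht.elim id (hR t))
  constructor
  · filter_upwards [h1] with x hx
    refine hx.trans (Nat.cast_le.2 ?_)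
    refine Set.ncard_le_ncard ?_ ?_
    · rintro n ⟨hn1, hn2, hn3⟩
      refine ⟨hn1, T'.filter (fun t => (S^[t] n).Prime), (filter_subset _ _).trans hTT, ?_, fun t ht => ?_⟩
      · refine hn2.trans ?_
        rw [← Set.ncard_coe_finset]
        refine Set.ncard_le_ncard_of_injOn (fun i : Fin (R + 1) => (i : ℕ)) ?_
          (fun i _ j _ h => Fin.ext h) (Finset.finite_toSet _)
        rintro i ⟨hi1, hi2⟩
        exact mem_coe.2 (mem_filter.2 ⟨(mem_filter.1 hi1).2, (hval n i).1 hi2⟩)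
      · rw [mem_filter]
        constructor
        · intro hp
          refine ⟨?_, hp⟩
          by_contra hyS
          have h5 := hn3 ⟨t, hidx t ht⟩ (fun h => hyS (mem_filter.1 h).2)
          exact h5 ((hval n ⟨t, hidx t ht⟩).2 hp)
        · exact fun h => h.2
    · apply (Set.finite_Iic ⌊x⌋₊).subset
      rintro n ⟨hn, -⟩
      exact Nat.le_floor hn
  · refine ⟨W.image (fun i : Fin (R + 1) => (i : ℕ)), ?_, ?_, ?_⟩
    · exact (image_subset_image hWU).trans (himg.le.trans hTT)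
    · rw [card_image_of_injective _ Fin.val_injective]
      exact hWm
    · refine h2.mono fun x hx => hx.trans (Nat.cast_le.2 ?_)
      refine Set.ncard_le_ncard ?_ (Pat_finite _ _ _ _)
      rintro n ⟨hn1, hn2⟩
      refine ⟨hn1, fun t ht => ?_⟩
      have h5 := hn2 ⟨t, hidx t ht⟩
      rw [hval n ⟨t, hidx t ht⟩] at h5
      rw [h5, mem_image]
      constructor
      · intro h6
        exact ⟨_, h6, rfl⟩
      · rintro ⟨z, hz, hzy⟩
        have : z = ⟨t, hidx t ht⟩ := Fin.ext hzy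
        rwa [this] at hz

/-- primes at the times of a set `T` in orbits of `x ↦ 4 x + 1` -/
theorem orbits {m K C : ℕ} (hyp : LH m K C) (T : Finset ℕ) (r : ℕ)
    (hT : K ≤ (T.filter fun t => ¬ 3 ∣ r + t).card) :
    (∀ R : ℕ, ∀ᶠ x : ℝ in atTop, x / Real.log x ^ (C + 3) ≤ (Set.ncard {n : ℕ | (n : ℝ) ≤ x ∧
      ∃ P : Finset ℕ, P ⊆ T ∧ m + 1 ≤ P.card ∧
        ∀ t : ℕ, t ≤ R ∨ t ∈ T → ((S^[t] n).Prime ↔ t ∈ P)} : ℝ)) ∧
    ∃ P : Finset ℕ, P ⊆ T ∧ m + 1 ≤ P.card ∧ ∀ R : ℕ, ∃ᶠ x : ℝ in atTop,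
      x / Real.log x ^ (C + 3) ≤ ((Pat T P R x).ncard : ℝ) := by
  classical
  obtain ⟨R0, hR0⟩ : ∃ R0 : ℕ, ∀ t ∈ T, t ≤ R0 := ⟨T.sup id, fun t ht => Finset.le_sup (f := id) ht⟩
  have hR' : ∀ R : ℕ, ∀ t ∈ T, t ≤ R + R0 := fun R t ht => (hR0 t ht).trans (Nat.le_add_left _ _)
  constructor
  · intro R
    filter_upwards [(setup hyp T r hT (R + R0) (hR' R)).1] with x hx
    refine hx.trans (Nat.cast_le.2 ?_)
    apply Set.ncard_le_ncard
    · rintro n ⟨hn1, P, hP1, hP2, hP3⟩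
      exact ⟨hn1, P, hP1, hP2, fun t ht => hP3 t (ht.imp (fun h => h.trans (Nat.le_add_right _ _)) id)⟩
    · apply (Set.finite_Iic ⌊x⌋₊).subset
      rintro n ⟨hn, -⟩
      exact Nat.le_floor hn
  · by_contra hcon
    push Not at hcon
    have h1 : ∀ P : Finset ℕ, ∃ R : ℕ, P ⊆ T → m + 1 ≤ P.card →
        ∀ᶠ x : ℝ in atTop, ((Pat T P R x).ncard : ℝ) < x / Real.log x ^ (C + 3) := by
      intro P
      by_cases h : P ⊆ T ∧ m + 1 ≤ P.card
      · obtain ⟨R, h2⟩ := hcon P h.1 h.2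
        refine ⟨R, fun _ _ => ?_⟩
        filter_upwards [h2] with x hx using hx
      · exact ⟨0, fun h2 h3 => absurd ⟨h2, h3⟩ h⟩
    choose Rf hf using h1
    obtain ⟨R, hR⟩ : ∃ R : ℕ, ∀ P ∈ T.powerset, Rf P ≤ R :=
      ⟨T.powerset.sup Rf, fun P hP => Finset.le_sup (f := Rf) hP⟩
    obtain ⟨-, P, hP1, hP2, hP3⟩ := setup hyp T r hT (R + R0) (hR' R)
    have h4 := hf P hP1 hP2
    obtain ⟨x, hx1, hx2⟩ := (hP3.and_eventually h4).exists
    have h5 : (Pat T P (R + R0) x).ncard ≤ (Pat T P (Rf P) x).ncard :=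
      Set.ncard_le_ncard (Pat_anti T P ((hR P (mem_powerset.2 hP1)).trans (Nat.le_add_right _ _)) x)
        (Pat_finite _ _ _ _)
    have h6 : ((Pat T P (R + R0) x).ncard : ℝ) ≤ ((Pat T P (Rf P) x).ncard : ℝ) := by
      exact_mod_cast h5
    linarith

/-- two thirds of any finite set of natural numbers miss a residue class modulo `3` -/
theorem two_thirds (T : Finset ℕ) : ∃ r : ℕ, T.card - T.card / 3 ≤ (T.filter fun t => ¬ 3 ∣ r + t).card := by
  classical
  by_contra hcon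
  push Not at hcon
  have h : ∀ r : ℕ, T.card / 3 < (T.filter fun t => 3 ∣ r + t).card := by
    intro r
    have h1 := hcon r
    have h2 := Finset.card_filter_add_card_filter_not (s := T) (fun t => 3 ∣ r + t)
    omega
  have h0 := h 0
  have h1 := h 1
  have h2 := h 2
  have h3 : (T.filter fun t => 3 ∣ 0 + t).card + (T.filter fun t => 3 ∣ 1 + t).card +
      (T.filter fun t => 3 ∣ 2 + t).card ≤ T.card := by
    rw [← card_union_of_disjoint, ← card_union_of_disjoint]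
    · exact card_le_card (union_subset (union_subset (filter_subset _ _) (filter_subset _ _)) (filter_subset _ _))
    · rw [disjoint_left]
      intro t ht ht2
      rw [mem_union, mem_filter, mem_filter] at ht
      rw [mem_filter] at ht2
      omega
    · rw [disjoint_left]
      intro t ht ht2
      rw [mem_filter] at ht ht2
      omega
  omega

end Pool.Agent.J6H58.Orb
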